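import Pool.Agent.H302Z.BSC

set_option autoImplicit false

namespace Pool.Agent.Results.MP_dad4ef_an.ACounterexample

open Pool.Agent.H302Z.BS

/-- The bidisk analogue of the Brown-Shields conjecture fails: there is an outer function in the
Dirichlet space of the bidisk whose set of radial zeros on the torus has logarithmic capacity
zero and which is not cyclic. -/
theorem result : ∃ f : ℂ × ℂ → ℂ,
    InDirichlet f ∧ Outer f ∧ CapacityZero (radialZeros f) ∧ ¬ Cyclic f :=
  ⟨f0, inDirichlet_f0, outer_f0, capacityZero_f0, not_cyclic_f0⟩

end Pool.Agent.Results.MP_dad4ef_an.ACounterexample
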